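import Pool.Agent.Lead.Ex633

set_option autoImplicit false

namespace Pool.Agent.Results.MP_633b85_co.Counterexample

open Set Pool.Agent.Lead.BinMatroid Pool.Agent.Lead.Ex633

/-- `f` is a 2-polymatroid on the finite set `S`. -/
structure IsTwoPolymatroid {S : Type} [DecidableEq S] (f : Finset S → ℕ) : Prop where
  empty : f ∅ = 0
  mono : ∀ A B, A ⊆ B → f A ≤ f B
  submod : ∀ A B, f (A ∪ B) + f (A ∩ B) ≤ f A + f B
  le_two : ∀ e, f {e} ≤ 2

/-- `M` is a matroid representation of `f`: a matroid on `S × {0, 1}` with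
`f A = r (A × {0, 1})` for every `A`. -/
def Represents {S : Type} (M : Matroid (S × Fin 2)) (f : Finset S → ℕ) : Prop :=
  M.E = univ ∧ ∀ A : Finset S, M.eRk ((A : Set S) ×ˢ (univ : Set (Fin 2))) = (f A : ℕ∞)

/-- A matching of `f` is a set `A` with `f A = 2 |A|`. -/
def IsMatching {S : Type} (f : Finset S → ℕ) (A : Finset S) : Prop := f A = 2 * A.card

/-- the least number of matchings whose union is `S` -/
noncomputable def beta {S : Type} (f : Finset S → ℕ) : ℕ :=
  sInf {k : ℕ | ∃ F : Fin k → Finset S, (∀ i, IsMatching f (F i)) ∧ ∀ e, ∃ i, e ∈ F i}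

/-- the least total weight of a fractional cover of `S` by matchings -/
noncomputable def betaStar {S : Type} [Fintype S] [DecidableEq S] (f : Finset S → ℕ) : ℝ :=
  sInf {t : ℝ | ∃ w : Finset S → ℝ, (∀ A, 0 ≤ w A) ∧ (∀ A, ¬ IsMatching f A → w A = 0) ∧
    (∀ e, 1 ≤ ∑ A ∈ Finset.univ.filter (fun A : Finset S => e ∈ A), w A) ∧ t = ∑ A, w A}

/-- the direct sum of two binary matroids of rank six on eleven elements -/
noncomputable def M : Matroid (Fin 11 × Fin 2) := vecMatroid (ZMod 2) vec

lemma M_indep (I : Set (Fin 11 × Fin 2)) : M.Indep I ↔ ∀ T : Finset (Fin 11 × Fin 2),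
    (T : Set (Fin 11 × Fin 2)) ⊆ I → T.Nonempty → ∑ x ∈ T, vec x ≠ 0 := by
  unfold M
  rw [vecMatroid_indep, indep_iff]

/-- the polymatroid -/
noncomputable def f (A : Finset (Fin 11)) : ℕ :=
  (M.eRk ((A : Set (Fin 11)) ×ˢ (univ : Set (Fin 2)))).toNat

lemma eRk_ne_top (X : Set (Fin 11 × Fin 2)) : M.eRk X ≠ ⊤ := by
  have h := M.eRk_le_encard X
  have h2 : X.encard ≠ ⊤ := X.toFinite.encard_lt_top.ne
  exact fun h3 => h2 (top_le_iff.1 (h3 ▸ h))

lemma represents : Represents M f :=
  ⟨rfl, fun _ => (ENat.natCast_toNat (eRk_ne_top _)).symm⟩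

lemma encard_prod (A : Finset (Fin 11)) :
    ((A : Set (Fin 11)) ×ˢ (univ : Set (Fin 2))).encard = ((2 * A.card : ℕ) : ℕ∞) := by
  have h : ((A : Set (Fin 11)) ×ˢ (univ : Set (Fin 2)))
      = ((A ×ˢ (Finset.univ : Finset (Fin 2)) : Finset (Fin 11 × Fin 2)) : Set _) := by
    simp
  rw [h, Set.encard_coe_eq_coe_finsetCard, Finset.card_product]
  simp [mul_comm]

lemma matching_iff (A : Finset (Fin 11)) :
    IsMatching f A ↔ M.Indep ((A : Set (Fin 11)) ×ˢ (univ : Set (Fin 2))) := by
  unfold IsMatching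
  rw [Matroid.indep_iff_eRk_eq_encard_of_finite (toFinite _), encard_prod]
  rw [← Nat.cast_inj (R := ℕ∞), ← represents.2 A]

lemma vec_off (x : Fin 11 × Fin 2) (k : Fin 2) (h : x.2 ≠ k) : vec x k = 0 := by
  simp [vec, Ne.symm h]

lemma sum_filter_eq (T : Finset (Fin 11 × Fin 2)) (k : Fin 2) :
    (∑ x ∈ T.filter (fun x => x.2 = k), vec x) = fun k' => if k' = k then (∑ x ∈ T, vec x) k
      else 0 := by
  funext k'
  rw [Finset.sum_apply]
  by_cases h : k' = k
  · subst h
    rw [if_pos rfl, Finset.sum_apply, Finset.sum_filter]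
    apply Finset.sum_congr rfl
    intro x _
    by_cases hx : x.2 = k'
    · rw [if_pos hx]
    · rw [if_neg hx, vec_off x k' hx]
  · rw [if_neg h]
    apply Finset.sum_eq_zero
    intro x hx
    rw [Finset.mem_filter] at hx
    exact vec_off x k' (by rw [hx.2]; exact Ne.symm h)

lemma side_image (T : Finset (Fin 11 × Fin 2)) (k : Fin 2) :
    sideSum k ((T.filter (fun x => x.2 = k)).image Prod.fst) = (∑ x ∈ T, vec x) k := by
  unfold sideSum
  rw [Finset.sum_image]
  · have h := congrFun (sum_filter_eq T k) k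
    rw [if_pos rfl, Finset.sum_apply] at h
    rw [← h]
    apply Finset.sum_congr rfl
    intro x hx
    rw [Finset.mem_filter] at hx
    rw [← hx.2]
  · intro x hx y hy hxy
    have hx' := (Finset.mem_filter.1 hx).2
    have hy' := (Finset.mem_filter.1 hy).2
    exact Prod.ext hxy (hx'.trans hy'.symm)

lemma indep_prod (A : Finset (Fin 11)) : M.Indep ((A : Set (Fin 11)) ×ˢ (univ : Set (Fin 2))) ↔
    ∀ k, ∀ c : Finset (Fin 11), c ⊆ A → c.Nonempty → sideSum k c ≠ 0 := by
  rw [M_indep]
  constructor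
  · intro h k c hc hne h0
    apply h (c ×ˢ {k}) ?_ ?_ ?_
    · intro x hx
      simp only [Finset.coe_product, Finset.coe_singleton, mem_prod, Finset.mem_coe,
        mem_singleton_iff] at hx
      exact ⟨hc hx.1, mem_univ _⟩
    · obtain ⟨e, he⟩ := hne
      exact ⟨(e, k), by simp [he]⟩
    · funext k'
      rw [Finset.sum_apply, Finset.sum_product]
      simp only [Finset.sum_singleton]
      by_cases hk : k' = k
      · subst hk
        exact h0
      · apply Finset.sum_eq_zero
        intro e _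
        exact vec_off (e, k) k' (Ne.symm hk)
  · intro h T hT hne h0
    obtain ⟨x, hx⟩ := hne
    apply h x.2 ((T.filter (fun y => y.2 = x.2)).image Prod.fst) ?_ ?_ ?_
    · intro e he
      rw [Finset.mem_image] at he
      obtain ⟨y, hy, rfl⟩ := he
      exact (hT (Finset.mem_of_mem_filter y hy)).1
    · exact ⟨x.1, Finset.mem_image.2 ⟨x, Finset.mem_filter.2 ⟨hx, rfl⟩, rfl⟩⟩
    · rw [side_image, h0]; rfl

lemma circuit_cond (C : Set (Fin 11 × Fin 2)) (hC : M.IsCircuit C) (e : Fin 11) :
    ¬ ((e, 0) ∈ C ∧ (e, 1) ∈ C) := by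
  rintro ⟨h0, h1⟩
  have hdep := hC.not_indep
  rw [M_indep] at hdep
  push Not at hdep
  obtain ⟨T, hT, ⟨x, hx⟩, hsum⟩ := hdep
  have hsub : ((T.filter (fun y => y.2 = x.2) : Finset (Fin 11 × Fin 2)) : Set _) ⊂ C := by
    refine ⟨fun y hy => hT (Finset.mem_of_mem_filter y hy), ?_⟩
    intro hcon
    have a0 := (Finset.mem_filter.1 (Finset.mem_coe.1 (hcon h0))).2
    have a1 := (Finset.mem_filter.1 (Finset.mem_coe.1 (hcon h1))).2
    rw [← a0] at a1
    exact absurd a1 (show ¬ ((1 : Fin 2) = 0) by decide)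
  have hind := hC.ssubset_indep hsub
  rw [M_indep] at hind
  refine hind (T.filter (fun y => y.2 = x.2)) subset_rfl ⟨x, Finset.mem_filter.2 ⟨hx, rfl⟩⟩ ?_
  rw [sum_filter_eq, hsum]
  funext k'
  simp

lemma matching_of {A : Finset (Fin 11)}
    (h : ∀ k : Fin 2, ∀ c : Finset (Fin 11), c ⊆ A → c.Nonempty → sideSum k c ≠ 0) :
    IsMatching f A := by
  rw [matching_iff, indep_prod]
  exact h

lemma not_sub {A : Finset (Fin 11)} (hA : IsMatching f A) (c : List (Fin 11) × Fin 2)
    (hc : c ∈ circL) : ¬ c.1.toFinset ⊆ A := by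
  rw [matching_iff, indep_prod] at hA
  intro h
  exact hA c.2 c.1.toFinset h (circ_dep c hc).1 (circ_dep c hc).2

lemma no_two_cover (A B : Finset (Fin 11)) (hA : IsMatching f A) (hB : IsMatching f B)
    (h : ∀ e, e ∈ A ∨ e ∈ B) : False := by
  obtain ⟨c, hc, h1 | h1⟩ := no_colouring A
  · exact not_sub hA c hc h1
  · refine not_sub hB c hc ?_
    intro e he
    rcases h e with h2 | h2
    · exact absurd h2 (Finset.disjoint_left.1 h1 he)
    · exact h2

lemma beta_eq : beta f = 3 := by
  apply le_antisymm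
  · apply Nat.sInf_le
    exact ⟨cov3, fun i => matching_of (cov3_indep i), cov3_all⟩
  · have hne : {k : ℕ | ∃ F : Fin k → Finset (Fin 11), (∀ i, IsMatching f (F i)) ∧
        ∀ e, ∃ i, e ∈ F i}.Nonempty :=
      ⟨3, cov3, fun i => matching_of (cov3_indep i), cov3_all⟩
    obtain ⟨F, hF, hcov⟩ := Nat.sInf_mem hne
    change 3 ≤ sInf _
    by_contra hlt
    push Not at hlt
    generalize sInf {k : ℕ | ∃ F : Fin k → Finset (Fin 11), (∀ i, IsMatching f (F i)) ∧
        ∀ e, ∃ i, e ∈ F i} = k at F hF hcov hlt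
    interval_cases k
    · obtain ⟨i, -⟩ := hcov 0
      exact i.elim0
    · refine no_two_cover (F 0) (F 0) (hF 0) (hF 0) (fun e => ?_)
      obtain ⟨i, hi⟩ := hcov e
      left
      rwa [Subsingleton.elim i 0] at hi
    · refine no_two_cover (F 0) (F 1) (hF 0) (hF 1) (fun e => ?_)
      obtain ⟨i, hi⟩ := hcov e
      rcases (show i = 0 ∨ i = 1 by omega) with rfl | rfl
      · exact Or.inl hi
      · exact Or.inr hi

lemma betaStar_le : betaStar f ≤ 11 / 6 := by
  classical
  apply csInf_le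
  · refine ⟨0, ?_⟩
    rintro t ⟨w, hw, -, -, rfl⟩
    exact Finset.sum_nonneg (fun A _ => hw A)
  · refine ⟨fun A => ∑ j : Fin 11, if cov j = A then (1 / 6 : ℝ) else 0, ?_, ?_, ?_, ?_⟩
    · intro A
      apply Finset.sum_nonneg
      intro j _
      split_ifs <;> norm_num
    · intro A hA
      apply Finset.sum_eq_zero
      intro j _
      rw [if_neg]
      rintro rfl
      exact hA (matching_of (cov_indep j))
    · intro e
      rw [Finset.sum_comm]
      have h1 : ∀ j : Fin 11, (∑ A ∈ Finset.univ.filter (fun A : Finset (Fin 11) => e ∈ A),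
          if cov j = A then (1 / 6 : ℝ) else 0) = if e ∈ cov j then (1 / 6 : ℝ) else 0 := by
        intro j
        rw [Finset.sum_ite_eq]
        simp
      rw [Finset.sum_congr rfl (fun j _ => h1 j), ← Finset.sum_filter, Finset.sum_const, cov_six e]
      norm_num
    · rw [Finset.sum_comm]
      have h1 : ∀ j : Fin 11, (∑ A : Finset (Fin 11), if cov j = A then (1 / 6 : ℝ) else 0)
          = 1 / 6 := by
        intro j
        rw [Finset.sum_ite_eq]
        simp
      rw [Finset.sum_congr rfl (fun j _ => h1 j), Finset.sum_const]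
      norm_num

lemma f_two : IsTwoPolymatroid f := by
  have hr := represents.2
  refine ⟨?_, ?_, ?_, ?_⟩
  · have := hr ∅
    rw [Finset.coe_empty, Set.empty_prod, Matroid.eRk_empty] at this
    exact_mod_cast this.symm
  · intro A B hAB
    have h := M.eRk_mono (Set.prod_mono (show (A : Set (Fin 11)) ⊆ B from hAB)
      (subset_refl (univ : Set (Fin 2))))
    rw [hr, hr] at h
    exact_mod_cast h
  · intro A B
    have h := M.eRk_inter_add_eRk_union_le ((A : Set (Fin 11)) ×ˢ (univ : Set (Fin 2)))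
      ((B : Set (Fin 11)) ×ˢ (univ : Set (Fin 2)))
    rw [← Set.union_prod, ← Set.inter_prod, ← Finset.coe_union, ← Finset.coe_inter,
      hr, hr, hr, hr] at h
    have h2 : f (A ∩ B) + f (A ∪ B) ≤ f A + f B := by exact_mod_cast h
    omega
  · intro e
    have h := M.eRk_le_encard ((({e} : Finset (Fin 11)) : Set (Fin 11)) ×ˢ (univ : Set (Fin 2)))
    rw [hr, encard_prod] at h
    have h2 : f {e} ≤ 2 * ({e} : Finset (Fin 11)).card := by exact_mod_cast h
    simpa using h2

lemma f_single (e : Fin 11) : f {e} = 2 := by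
  obtain ⟨i, hi⟩ := cov3_all e
  have h : IsMatching f {e} := by
    rw [matching_iff, indep_prod]
    intro k c hc
    exact cov3_indep i k c (hc.trans (Finset.singleton_subset_iff.2 hi))
  simpa [IsMatching] using h

/-- There is a 2-polymatroid `f` on an eleven element set, with a matroid representation in which
no circuit contains both copies of an element, such that `β(f) = 3 > 17/6 ≥ β*(f) + 1`. -/
theorem result : ∃ (f : Finset (Fin 11) → ℕ) (M : Matroid (Fin 11 × Fin 2)),
    IsTwoPolymatroid f ∧ Represents M f ∧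
    (∀ C, M.IsCircuit C → ∀ e, ¬ ((e, 0) ∈ C ∧ (e, 1) ∈ C)) ∧
    (∀ e, f {e} = 2) ∧ beta f = 3 ∧ betaStar f ≤ 11 / 6 ∧ betaStar f + 1 < beta f := by
  refine ⟨f, M, f_two, represents, circuit_cond, f_single, beta_eq, betaStar_le, ?_⟩
  have h1 := betaStar_le
  rw [beta_eq]
  push_cast
  linarith

end Pool.Agent.Results.MP_633b85_co.Counterexample
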